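import Pool.Agent.Helper18.EN.EDER
import Pool.Agent.Helper96.SP.QCHAINS

/-!
# The operator on the last factor
-/

open CategoryTheory MonoidalCategory Limits BraidedCategory

universe u v w

namespace Pool.Agent.Helper8.EN

open Pool.Agent.TH90.AB Pool.Agent.TH90.Kim Pool.Agent.Helper96.Kim Pool.Agent.Helper96.SP

variable {𝒜 : Type u} [Category.{v} 𝒜] [MonoidalCategory 𝒜] [SymmetricCategory 𝒜]
  [Preadditive 𝒜] [MonoidalPreadditive 𝒜] [Linear ℚ 𝒜] [MonoidalLinear ℚ 𝒜]
  {K : Type w} [Field K] [CharZero K] {F : Realisation 𝒜 K}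

theorem ins_wd {M : 𝒜} (f : M ⟶ M) (n : ℕ) (k : Fin n) (v : Fin n → F.V M) :
    F.map (ins f n k) (wd F n v) = wd F n (Function.update v k (F.map f (v k))) := by
  induction n with
  | zero => exact k.elim0
  | succ n ih =>
    refine Fin.cases ?_ (fun j => ?_) k
    · refine (F.whiskerLeft _ _ _).trans ?_
      change F.ext _ _ = F.ext _ _
      rw [Function.update_self]
      congr 3
    · refine (F.whiskerRight _ _ _).trans ?_
      rw [ih]
      change F.ext _ _ = F.ext _ _
      rw [Function.update_of_ne (Fin.succ_ne_zero j).symm]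
      congr 3
      funext i
      by_cases h : i = j
      · rw [h, Function.update_self, Function.update_self]
      · rw [Function.update_of_ne h, Function.update_of_ne (fun h' => h (Fin.succ_injective _ h'))]

theorem last [hdual : ∀ X : 𝒜, HasRightDual X] {M : 𝒜} {d : ℕ}
    (b : Module.Basis (Fin d) K (F.V M)) (n : ℕ) :
    ∃ Λ : (F.V M →ₗ[K] F.V M) →ₗ[K] (F.V (T M (n + 1)) →ₗ[K] F.V (T M (n + 1))),
      (∀ (x : F.V M →ₗ[K] F.V M) (v : Fin (n + 1) → F.V M), Λ x (wd F (n + 1) v) =
        wd F (n + 1) (Function.update v (Fin.last n) (x (v (Fin.last n))))) ∧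
      ∀ f : M ⟶ M, Λ (F.map f) = F.map (ins f (n + 1) (Fin.last n)) := by
  refine ⟨Pool.Agent.Helper18.EN.posL b (n + 1) (Fin.last n), fun x v => ?_, fun f => ?_⟩
  · exact Pool.Agent.Helper18.EN.pos_wd b x (n + 1) (Fin.last n) v
  · refine Pool.Agent.Helper18.EN.ext_wd (Y := T M (n + 1)) b fun w => ?_
    refine (Pool.Agent.Helper18.EN.pos_wd b _ (n + 1) (Fin.last n) _).trans ?_
    exact (ins_wd f (n + 1) (Fin.last n) _).symm

end Pool.Agent.Helper8.EN
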