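import Pool.Agent.Helper8.NW.Main
import Pool.Agent.Helper96.SP.SUDIAG

/-!
# Endomorphisms and Schur powers: statements of the packages
-/

open CategoryTheory MonoidalCategory Limits BraidedCategory

universe u v w

namespace Pool.Agent.Helper8.EN.Stm

open Pool.Agent.TH90.AB Pool.Agent.TH90.Kim Pool.Agent.Helper96.Kim Pool.Agent.Helper96.SP
  Pool.Agent.Helper8.NW

set_option linter.unusedSectionVars false

/-! ## POS (rational matrices) -/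

theorem pos {W H : Type} [Fintype W] [DecidableEq W] [Fintype H] (E : H → Matrix W W ℚ)
    (X : Matrix W W ℚ)
    (h0 : (X.transpose * (∑ h, (E h).transpose * E h) * X * ∑ h, (E h).transpose * E h).trace = 0)
    (h h' : H) : E h * X * (E h').transpose = 0 := sorry

/-! ## CH (Cayley-Hamilton) -/

theorem ch {K V I : Type*} [Field K] [CharZero K] [AddCommGroup V] [Module K V] [Fintype I]
    [DecidableEq I] (Ψ : V →ₗ[K] V) (e : I → V) (G : Matrix I I ℚ)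
    (hΨ : ∀ i, Ψ (e i) = ∑ j, (G j i : K) • e j) (hG : ∀ t : I → ℚ, G.mulVec t = 0 → t = 0)
    (S : AddSubgroup V) (hSq : ∀ (c : ℚ), ∀ y ∈ S, (c : K) • y ∈ S) (hS : ∀ y ∈ S, Ψ y ∈ S)
    (x : V) (hx : x ∈ Submodule.span K (Set.range e)) (h : Ψ x ∈ S) : x ∈ S := sorry

/-! ## GA (group algebra) -/

theorem ga {n : ℕ} (e : QS n) : ∃ u : QS n, e = e * adj e * u := sorry

section cat

variable {𝒜 : Type u} [Category.{v} 𝒜] [MonoidalCategory 𝒜] [SymmetricCategory 𝒜]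
  [Preadditive 𝒜] [MonoidalPreadditive 𝒜] [Linear ℚ 𝒜] [MonoidalLinear ℚ 𝒜]
  {K : Type w} [Field K] [CharZero K] {F : Realisation 𝒜 K}

/-! ## LAST -/

theorem last [hdual : ∀ X : 𝒜, HasRightDual X] {M : 𝒜} {d : ℕ}
    (b : Module.Basis (Fin d) K (F.V M)) (n : ℕ) :
    ∃ Λ : (F.V M →ₗ[K] F.V M) →ₗ[K] (F.V (T M (n + 1)) →ₗ[K] F.V (T M (n + 1))),
      (∀ (x : F.V M →ₗ[K] F.V M) (v : Fin (n + 1) → F.V M), Λ x (wd F (n + 1) v) =
        wd F (n + 1) (Function.update v (Fin.last n) (x (v (Fin.last n))))) ∧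
      ∀ f : M ⟶ M, Λ (F.map f) = F.map (ins f (n + 1) (Fin.last n)) := sorry

/-! ## MAT -/

theorem mat [hdual : ∀ X : 𝒜, HasRightDual X] {M : 𝒜} {φ : Fam M} (hφ : PA φ) {d : ℕ}
    (b : Module.Basis (Fin d) K (F.V M)) (δ : Fin d → ℚ) (hδ : ∀ i, δ i = 1 ∨ δ i = -1)
    (hb : ∀ i, F.par M (b i) = (δ i : K) • b i) (n : ℕ)
    (B : Module.Basis (Fin n → Fin d) K (F.V (T M n))) (hB : ∀ w, B w = wd F n fun j => b (w j)) :
    ∃ m : QS n → Matrix (Fin n → Fin d) (Fin n → Fin d) ℚ,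
      (∀ x w, F.map (rh φ n x) (B w) = ∑ w', (m x w' w : K) • B w') ∧
      (∀ x y, m (x * y) = m x * m y) ∧ (∀ x y, m (x + y) = m x + m y) ∧
      (∀ x, m (adj x) = (m x).transpose) ∧
      (∀ x w w', (∏ k, δ (w k)) ≠ ∏ k, δ (w' k) → m x w' w = 0) ∧ m 0 = 0 := sorry

/-! ## EDER (even derivations) -/

theorem eder [hdual : ∀ X : 𝒜, HasRightDual X] {M : 𝒜} {φ : Fam M} (hφ : PA φ) {d : ℕ}
    (b : Module.Basis (Fin d) K (F.V M)) (δ : Fin d → ℚ) (hδ : ∀ i, δ i = 1 ∨ δ i = -1)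
    (hb : ∀ i, F.par M (b i) = (δ i : K) • b i) (n : ℕ)
    (Λ : (F.V M →ₗ[K] F.V M) →ₗ[K] (F.V (T M (n + 1)) →ₗ[K] F.V (T M (n + 1))))
    (hΛ : ∀ (x : F.V M →ₗ[K] F.V M) (v : Fin (n + 1) → F.V M), Λ x (wd F (n + 1) v) =
        wd F (n + 1) (Function.update v (Fin.last n) (x (v (Fin.last n))))) :
    ∃ Δ : (F.V M →ₗ[K] F.V M) →ₗ[K] (F.V (T M (n + 1)) →ₗ[K] F.V (T M (n + 1))),
      (∀ A v, Δ A (wd F (n + 1) v) = ∑ k, wd F (n + 1) (Function.update v k (A (v k)))) ∧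
      (∀ A, (∀ x, F.par M (A x) = A (F.par M x)) → ∀ (e : QS (n + 1)) z,
        Δ A (F.map (rh φ (n + 1) e) z) = F.map (rh φ (n + 1) e) (Δ A z)) ∧
      (∀ A, (∀ x, F.par M (A x) = A (F.par M x)) →
        ∑ g : Equiv.Perm (Fin (n + 1)), F.map (φ (n + 1) g⁻¹ : T M (n + 1) ⟶ T M (n + 1)) ∘ₗ
          Λ A ∘ₗ F.map (φ (n + 1) g : T M (n + 1) ⟶ T M (n + 1)) =
            (n.factorial : K) • Δ A) := sorry

/-! ## SEPW (from sepA, mix, pur, change, qw) -/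

theorem sepw [hdual : ∀ X : 𝒜, HasRightDual X] {M D : 𝒜} {φ : Fam M} (hφ : PA φ) {n : ℕ}
    {e : QS (n + 1)} (i : D ⟶ T M (n + 1)) (r : T M (n + 1) ⟶ D) (hir : i ≫ r = 𝟙 D)
    (hri : r ≫ i = rh φ (n + 1) e) (hg : Good F (n + 1) r) {d : ℕ}
    (b : Module.Basis (Fin d) K (F.V M)) (δ : Fin d → ℚ) (hδ : ∀ i, δ i = 1 ∨ δ i = -1)
    (hb : ∀ i, F.par M (b i) = (δ i : K) • b i) :
    (∀ a c, a ≠ c → δ a = δ c → ∃ w : Fin (n + 1) → Fin d,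
      F.map (rh φ (n + 1) e) (wd F (n + 1) fun k => b (w k)) ≠ 0 ∧ cnt w a ≠ cnt w c) ∧
    ∀ a c, a ≠ c → ∃ (w w' : Fin (n + 1) → Fin d) (m : ℤ), m ≠ 0 ∧
      F.map (rh φ (n + 1) e) (wd F (n + 1) fun k => b (w k)) ≠ 0 ∧
      F.map (rh φ (n + 1) e) (wd F (n + 1) fun k => b (w' k)) ≠ 0 ∧
      ∀ l, (cnt w l : ℤ) - cnt w' l = m * ((if l = a then 1 else 0) - if l = c then 1 else 0) :=
  sorry

/-! ## INJ (from EDER, SEPW) -/

theorem inj [hdual : ∀ X : 𝒜, HasRightDual X] {M D : 𝒜} {φ : Fam M} (hφ : PA φ) {n : ℕ}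
    {e : QS (n + 1)} (i : D ⟶ T M (n + 1)) (r : T M (n + 1) ⟶ D) (hir : i ≫ r = 𝟙 D)
    (hri : r ≫ i = rh φ (n + 1) e) (hg : Good F (n + 1) r) {d : ℕ}
    (b : Module.Basis (Fin d) K (F.V M)) (δ : Fin d → ℚ) (hδ : ∀ i, δ i = 1 ∨ δ i = -1)
    (hb : ∀ i, F.par M (b i) = (δ i : K) • b i)
    (Λ : (F.V M →ₗ[K] F.V M) →ₗ[K] (F.V (T M (n + 1)) →ₗ[K] F.V (T M (n + 1))))
    (hΛ : ∀ (x : F.V M →ₗ[K] F.V M) (v : Fin (n + 1) → F.V M), Λ x (wd F (n + 1) v) =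
        wd F (n + 1) (Function.update v (Fin.last n) (x (v (Fin.last n)))))
    (X : F.V M →ₗ[K] F.V M) (hX : ∀ x, F.par M (X x) = X (F.par M x))
    (h0 : ∀ (g g' : Equiv.Perm (Fin (n + 1))) z,
      F.map (rh φ (n + 1) (e * MonoidAlgebra.single g 1)) (Λ X
        (F.map (rh φ (n + 1) (MonoidAlgebra.single g' 1 * e)) z)) = 0) : X = 0 := sorry

end cat

end Pool.Agent.Helper8.EN.Stm
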